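import Pool.Agent.W787.PS.StmB

/-!
# `L⁴` bound and exponential integrability on the surface
-/

set_option autoImplicit false

open MeasureTheory Set Metric Filter Topology
open scoped ContDiff

noncomputable section

namespace Pool.Agent.W589.PS.MTM

open Pool.Agent.W787.PS

theorem nsq_eq (f : ℂ → ℝ) (x : ℂ) : nsq f x = gdot f f x := by
  simp only [nsq, gdot]; ring

theorem nsq_nonneg (f : ℂ → ℝ) (x : ℂ) : 0 ≤ nsq f x := by
  unfold nsq; positivity

theorem continuous_nsq {v : ℂ → ℝ} (hv : ContDiff ℝ 1 v) : Continuous (nsq v) := by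
  have h := hv.continuous_fderiv (by norm_num)
  unfold nsq
  exact ((h.clm_apply continuous_const).pow 2).add ((h.clm_apply continuous_const).pow 2)

theorem finite_vol {M : Type} [TopologicalSpace M] [MeasurableSpace M] (X : ClosedSurface M) :
    IsFiniteMeasure X.vol := ⟨by rw [X.vol_univ]; exact ENNReal.one_lt_top⟩

theorem integrable_of_cont {M : Type} [TopologicalSpace M] [CompactSpace M]
    [MeasurableSpace M] [BorelSpace M] (X : ClosedSurface M) {F : M → ℝ} (hF : Continuous F) :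
    Integrable F X.vol := by
  have := finite_vol X
  exact hF.integrable_of_hasCompactSupport (HasCompactSupport.of_compactSpace F)

/-- the cutoff function -/
def chi : ContDiffBump (0 : ℂ) := ⟨1, 3 / 2, by norm_num, by norm_num⟩

theorem local_est (h3 : S_SMO) (h4 : S_GIP) {M : Type} [TopologicalSpace M] [CompactSpace M]
    [MeasurableSpace M] [BorelSpace M] (X : ClosedSurface M) (κ : ℂ → M) (d : ℂ → ℝ)
    (hD : IsDisc X κ d) : ∃ C' Cd : ℝ, 0 < C' ∧ 0 < Cd ∧
      (∀ z ∈ ball (0 : ℂ) 8, 0 < d z ∧ d z ≤ Cd) ∧ ∀ u, X.Smooth u → ∃ v : ℂ → ℝ,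
        ContDiff ℝ 1 v ∧ HasCompactSupport v ∧ tsupport v ⊆ closedBall 0 2 ∧
        (∀ z ∈ ball (0 : ℂ) 1, v z = u (κ z)) ∧ ∫ x, nsq v x ≤ C' * X.h1sq u ∧
        ∫ x, v x ^ 2 ≤ C' * X.h1sq u := by
  obtain ⟨c, C, hc, hcC⟩ := hD.d_bd
  have hC : 0 < C := by
    have := hcC 0 (by simp)
    linarith
  have hchi : ContDiff ℝ 1 (chi : ℂ → ℝ) := chi.contDiff
  obtain ⟨K, hK⟩ := (isCompact_closedBall (0 : ℂ) 2).exists_bound_of_continuousOn
    (continuous_nsq hchi).continuousOn
  have hK0 : 0 ≤ K := (norm_nonneg _).trans (hK 0 (by simp))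
  have hK' : ∀ z ∈ closedBall (0 : ℂ) 2, nsq chi z ≤ K := fun z hz =>
    (le_abs_self _).trans (hK z hz)
  refine ⟨2 + 2 * K / c + 1 / c, C, by positivity, hC, fun z hz =>
    ⟨lt_of_lt_of_le hc (hcC z hz).1, (hcC z hz).2⟩, fun u hu => ?_⟩
  obtain ⟨hcont, -, -, -, -, -, -, -, -, -, -, -, hgnn, -⟩ := h3 M X
  have hgc := (h4 M X u u hu hu).1
  have hw : ContDiffOn ℝ ∞ (fun z => u (κ z)) (ball 0 8) := hD.smooth u hu
  have huc := hcont u hu
  have hgi : Integrable (X.gip u u) X.vol := integrable_of_cont X hgc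
  have hui : Integrable (fun x => u x ^ 2) X.vol := integrable_of_cont X (huc.pow 2)
  have h28 : ball (0 : ℂ) 2 ⊆ ball 0 8 := ball_subset_ball (by norm_num)
  have h28' : closedBall (0 : ℂ) 2 ⊆ ball 0 8 := closedBall_subset_ball (by norm_num)
  have hdir : 0 ≤ X.dir u u := integral_nonneg (hgnn u)
  have hu2 : 0 ≤ ∫ x, u x ^ 2 ∂X.vol := integral_nonneg fun x => sq_nonneg _
  have hsup : tsupport (chi : ℂ → ℝ) ⊆ ball 0 2 := by
    rw [chi.tsupport_eq]
    exact closedBall_subset_ball (by simp only [chi]; norm_num)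
  -- energy
  have hnw : IntegrableOn (nsq fun z => u (κ z)) (ball 0 2) := by
    have h := ((hD.intg (X.gip u u) (ball 0 2) measurableSet_ball h28).1).mp hgi.integrableOn
    refine h.congr_fun (fun z hz => ?_) measurableSet_ball
    rw [nsq_eq]
    exact hD.gip u u hu hu z (h28 hz)
  have hE1 : ∫ z in ball (0 : ℂ) 2, nsq (fun z => u (κ z)) z ≤ X.dir u u := by
    have h := (hD.intg (X.gip u u) (ball 0 2) measurableSet_ball h28).2
    have h' : ∫ z in ball (0 : ℂ) 2, nsq (fun z => u (κ z)) z =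
        ∫ z in ball (0 : ℂ) 2, X.gip u u (κ z) * d z := by
      refine setIntegral_congr_fun measurableSet_ball fun z hz => ?_
      rw [nsq_eq]
      exact (hD.gip u u hu hu z (h28 hz)).symm
    rw [h', ← h]
    exact setIntegral_le_integral hgi (Eventually.of_forall (hgnn u))
  -- L²
  have hw2 : IntegrableOn (fun z => u (κ z) ^ 2) (ball 0 2) := by
    have : ContinuousOn (fun z => u (κ z) ^ 2) (closedBall 0 2) :=
      (hw.continuousOn.mono h28').pow 2
    exact (this.integrableOn_compact (isCompact_closedBall _ _)).mono_set ball_subset_closedBall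
  have hE2 : ∫ z in ball (0 : ℂ) 2, u (κ z) ^ 2 ≤ 1 / c * ∫ x, u x ^ 2 ∂X.vol := by
    have h := hD.intg (fun x => u x ^ 2) (ball 0 2) measurableSet_ball h28
    have h1 : IntegrableOn (fun z => 1 / c * (u (κ z) ^ 2 * d z)) (ball 0 2) :=
      (h.1.mp hui.integrableOn).const_mul _
    calc ∫ z in ball (0 : ℂ) 2, u (κ z) ^ 2
        ≤ ∫ z in ball (0 : ℂ) 2, 1 / c * (u (κ z) ^ 2 * d z) := by
          refine setIntegral_mono_on hw2 h1 measurableSet_ball fun z hz => ?_
          have hd := (hcC z (h28 hz)).1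
          rw [show 1 / c * (u (κ z) ^ 2 * d z) = u (κ z) ^ 2 * (d z / c) by ring]
          have : 1 ≤ d z / c := (one_le_div hc).mpr hd
          nlinarith [sq_nonneg (u (κ z))]
      _ = 1 / c * ∫ z in ball (0 : ℂ) 2, u (κ z) ^ 2 * d z := by rw [integral_const_mul]
      _ = 1 / c * ∫ x in κ '' ball 0 2, u x ^ 2 ∂X.vol := by rw [h.2]
      _ ≤ 1 / c * ∫ x, u x ^ 2 ∂X.vol := by
          refine mul_le_mul_of_nonneg_left ?_ (by positivity)
          exact setIntegral_le_integral hui (Eventually.of_forall fun x => sq_nonneg _)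
  -- the localised function
  have hv : ContDiff ℝ 1 (fun z => chi z * u (κ z)) := by
    rw [contDiff_iff_contDiffAt]
    intro z
    by_cases hz : z ∈ ball (0 : ℂ) 8
    · have h1 : ContDiffAt ℝ 1 (fun z => u (κ z)) z :=
        (hw.contDiffAt (isOpen_ball.mem_nhds hz)).of_le (by exact_mod_cast le_top)
      exact hchi.contDiffAt.mul h1
    · have hz' : z ∉ tsupport (chi : ℂ → ℝ) := fun h => hz (h28 (hsup h))
      have h1 : (fun z => chi z * u (κ z)) =ᶠ[𝓝 z] fun _ => 0 := by
        have h2 := (isClosed_tsupport (chi : ℂ → ℝ)).isOpen_compl.mem_nhds hz'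
        filter_upwards [h2] with y hy
        rw [image_eq_zero_of_notMem_tsupport hy, zero_mul]
      exact contDiffAt_const.congr_of_eventuallyEq h1
  have hvs : tsupport (fun z => chi z * u (κ z)) ⊆ tsupport (chi : ℂ → ℝ) :=
    tsupport_mul_subset_left
  have hvc : HasCompactSupport (fun z => chi z * u (κ z)) := chi.hasCompactSupport.mul_right
  refine ⟨fun z => chi z * u (κ z), hv, hvc, hvs.trans (hsup.trans ball_subset_closedBall),
    fun z hz => ?_, ?_, ?_⟩
  · have : chi z = 1 := chi.one_of_mem_closedBall (ball_subset_closedBall hz)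
    simp only [this, one_mul]
  · have h1 : ∫ x, nsq (fun z => chi z * u (κ z)) x =
        ∫ x in ball (0 : ℂ) 2, nsq (fun z => chi z * u (κ z)) x := by
      rw [setIntegral_eq_integral_of_forall_compl_eq_zero]
      intro x hx
      have h2 : x ∉ tsupport (fun z => chi z * u (κ z)) := fun h => hx (hsup (hvs h))
      have h3 : fderiv ℝ (fun z => chi z * u (κ z)) x = 0 := by
        by_contra hne
        exact h2 (support_fderiv_subset ℝ hne)
      simp [nsq, h3]
    rw [h1]
    have h2 : IntegrableOn (fun z => 2 * nsq (fun z => u (κ z)) z + 2 * K * u (κ z) ^ 2)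
        (ball 0 2) := (hnw.const_mul 2).add (hw2.const_mul (2 * K))
    have h5 : ∫ z in ball (0 : ℂ) 2, (2 * nsq (fun z => u (κ z)) z + 2 * K * u (κ z) ^ 2) =
        2 * (∫ z in ball (0 : ℂ) 2, nsq (fun z => u (κ z)) z) +
          2 * K * ∫ z in ball (0 : ℂ) 2, u (κ z) ^ 2 := by
      rw [integral_add (hnw.const_mul 2) (hw2.const_mul (2 * K)), integral_const_mul,
        integral_const_mul]
    have h6 : ∫ x in ball (0 : ℂ) 2, nsq (fun z => chi z * u (κ z)) x ≤
        ∫ z in ball (0 : ℂ) 2, (2 * nsq (fun z => u (κ z)) z + 2 * K * u (κ z) ^ 2) := by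
      refine setIntegral_mono_on ?_ h2 measurableSet_ball fun z hz => ?_
      · exact ((continuous_nsq hv).continuousOn.integrableOn_compact
          (isCompact_closedBall _ _)).mono_set ball_subset_closedBall
      · have hz8 := h28 hz
        have hwd : DifferentiableAt ℝ (fun z => u (κ z)) z :=
          (hw.contDiffAt (isOpen_ball.mem_nhds hz8)).differentiableAt (by simp)
        have hcd : DifferentiableAt ℝ (chi : ℂ → ℝ) z :=
          hchi.contDiffAt.differentiableAt (by norm_num)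
        have hfd : fderiv ℝ (fun z => chi z * u (κ z)) z =
            chi z • fderiv ℝ (fun z => u (κ z)) z + u (κ z) • fderiv ℝ (chi : ℂ → ℝ) z :=
          fderiv_fun_mul hcd hwd
        have hk := hK' z (ball_subset_closedBall hz)
        have hx0 : 0 ≤ chi z := chi.nonneg
        have hx1 : chi z ≤ 1 := chi.le_one
        have key : ∀ e : ℂ, (fderiv ℝ (fun z => chi z * u (κ z)) z e) ^ 2 ≤
            2 * (fderiv ℝ (fun z => u (κ z)) z e) ^ 2 +
              2 * u (κ z) ^ 2 * (fderiv ℝ (chi : ℂ → ℝ) z e) ^ 2 := by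
          intro e
          rw [hfd]
          simp only [add_apply, smul_apply, smul_eq_mul]
          generalize fderiv ℝ (fun z => u (κ z)) z e = a
          generalize fderiv ℝ (chi : ℂ → ℝ) z e = b
          generalize u (κ z) = t
          have hx2 : chi z ^ 2 ≤ 1 := by nlinarith
          nlinarith [sq_nonneg (chi z * a - t * b), mul_nonneg (sub_nonneg.mpr hx2) (sq_nonneg a)]
        have k1 := key 1
        have k2 := key Complex.I
        unfold nsq at hk ⊢
        nlinarith [mul_nonneg (sq_nonneg (u (κ z))) (sub_nonneg.mpr hk)]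
    rw [h5] at h6
    refine h6.trans ?_
    have h7 : 2 * K * ∫ z in ball (0 : ℂ) 2, u (κ z) ^ 2 ≤
        2 * K * (1 / c * ∫ x, u x ^ 2 ∂X.vol) := mul_le_mul_of_nonneg_left hE2 (by positivity)
    have h8 : (0 : ℝ) ≤ 1 / c := by positivity
    have h9 : (0 : ℝ) ≤ 2 * K / c := by positivity
    have h10 : 2 * K * (1 / c * ∫ x, u x ^ 2 ∂X.vol) = 2 * K / c * ∫ x, u x ^ 2 ∂X.vol := by ring
    rw [h10] at h7
    unfold ClosedSurface.h1sq
    nlinarith [mul_nonneg h8 hdir, mul_nonneg h9 hdir, mul_nonneg h8 hu2]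
  · have h1 : ∫ x, (chi x * u (κ x)) ^ 2 =
        ∫ x in ball (0 : ℂ) 2, (chi x * u (κ x)) ^ 2 := by
      rw [setIntegral_eq_integral_of_forall_compl_eq_zero]
      intro x hx
      have h2 : x ∉ tsupport (chi : ℂ → ℝ) := fun h => hx (hsup h)
      rw [image_eq_zero_of_notMem_tsupport h2]
      ring
    rw [h1]
    have h2 : ∫ x in ball (0 : ℂ) 2, (chi x * u (κ x)) ^ 2 ≤
        ∫ z in ball (0 : ℂ) 2, u (κ z) ^ 2 := by
      refine setIntegral_mono_on ?_ hw2 measurableSet_ball fun z hz => ?_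
      · exact ((hv.continuous.pow 2).continuousOn.integrableOn_compact
          (isCompact_closedBall _ _)).mono_set ball_subset_closedBall
      · have hx0 : 0 ≤ chi z := chi.nonneg
        have hx1 : chi z ≤ 1 := chi.le_one
        have hx2 : chi z ^ 2 ≤ 1 := by nlinarith
        nlinarith [mul_nonneg (sub_nonneg.mpr hx2) (sq_nonneg (u (κ z)))]
    have h8 : (0 : ℝ) ≤ 1 / c := by positivity
    have h9 : (0 : ℝ) ≤ 2 * K / c := by positivity
    unfold ClosedSurface.h1sq
    nlinarith [mul_nonneg h8 hdir, mul_nonneg h9 hdir, mul_nonneg h9 hu2]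

/-- the finite cover -/
theorem cover (h1 : S_DISC) {M : Type} [TopologicalSpace M] [T2Space M] [CompactSpace M]
    [MeasurableSpace M] [BorelSpace M] (X : ClosedSurface M) :
    ∃ (κ : M → ℂ → M) (d : M → ℂ → ℝ) (t : Finset M), (∀ x, IsDisc X (κ x) (d x)) ∧
      univ ⊆ ⋃ x ∈ t, κ x '' ball 0 1 := by
  have h := fun x : M => h1 M X x 1 one_pos
  choose κ d hD hx _ using h
  have hopen : ∀ x, IsOpen (κ x '' ball 0 1) := fun x =>
    (hD x).isOpen _ isOpen_ball (ball_subset_ball (by norm_num))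
  obtain ⟨t, ht⟩ := isCompact_univ.elim_finite_subcover (fun x => κ x '' ball (0 : ℂ) 1) hopen
    (fun x _ => mem_iUnion.mpr ⟨x, ⟨0, by simp, hx x⟩⟩)
  exact ⟨κ, d, t, hD, ht⟩

theorem sum_le {M : Type} [TopologicalSpace M] [MeasurableSpace M] (X : ClosedSurface M)
    (F : M → ℝ) (hF : Integrable F X.vol) (h0 : ∀ x, 0 ≤ F x) (A : M → Set M)
    (hA : ∀ x, MeasurableSet (A x)) (t : Finset M) :
    ∫ x in ⋃ y ∈ t, A y, F x ∂X.vol ≤ ∑ y ∈ t, ∫ x in A y, F x ∂X.vol := by
  classical
  induction t using Finset.induction_on with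
  | empty => simp
  | insert a t ha ih =>
    rw [Finset.sum_insert ha, Finset.set_biUnion_insert]
    have hm : MeasurableSet (⋃ y ∈ t, A y) := t.measurableSet_biUnion fun y _ => hA y
    rw [← union_sdiff_self, setIntegral_union disjoint_sdiff_self_right (hm.diff (hA a))
      hF.integrableOn hF.integrableOn]
    have h1 : ∫ x in (⋃ y ∈ t, A y) \ A a, F x ∂X.vol ≤ ∫ x in ⋃ y ∈ t, A y, F x ∂X.vol :=
      setIntegral_mono_set hF.integrableOn (Eventually.of_forall h0)
        (Eventually.of_forall (sdiff_subset : (⋃ y ∈ t, A y) \ A a ⊆ _))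
    linarith

theorem transfer {M : Type} [TopologicalSpace M] [CompactSpace M]
    [MeasurableSpace M] [BorelSpace M] (X : ClosedSurface M) (κ : ℂ → M) (d : ℂ → ℝ)
    (hD : IsDisc X κ d) (Cd : ℝ) (hCd : ∀ z ∈ ball (0 : ℂ) 8, 0 < d z ∧ d z ≤ Cd)
    (F : M → ℝ) (hF : Continuous F) (h0 : ∀ x, 0 ≤ F x) (G : ℂ → ℝ) (hG : Continuous G)
    (hGF : ∀ z ∈ ball (0 : ℂ) 1, G z = F (κ z)) :
    ∫ x in κ '' ball 0 1, F x ∂X.vol ≤ Cd * ∫ z in ball (0 : ℂ) 1, G z := by
  have h18 : ball (0 : ℂ) 1 ⊆ ball 0 8 := ball_subset_ball (by norm_num)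
  have h := hD.intg F (ball 0 1) measurableSet_ball h18
  rw [h.2, ← integral_const_mul]
  refine setIntegral_mono_on (h.1.mp (integrable_of_cont X hF).integrableOn) ?_
    measurableSet_ball fun z hz => ?_
  · exact ((hG.const_mul Cd).continuousOn.integrableOn_compact
      (isCompact_closedBall _ _)).mono_set ball_subset_closedBall
  · rw [hGF z hz, mul_comm]
    exact mul_le_mul_of_nonneg_right (hCd z (h18 hz)).2 (h0 _)

theorem l4m (h1 : S_DISC) (h2 : S_LAD) (h3 : S_SMO) (h4 : S_GIP) : S_L4M := by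
  intro M _ _ _ _ _ X
  obtain ⟨κ, d, t, hD, ht⟩ := cover h1 X
  obtain ⟨CL, hCL, hlad⟩ := h2
  have hloc := fun x : M => local_est h3 h4 X (κ x) (d x) (hD x)
  choose C' Cd hC' hCd hd hv using hloc
  refine ⟨∑ x ∈ t, Cd x * (CL * (C' x * C' x)) + 1, ?_, fun u hu => ?_⟩
  · have : 0 ≤ ∑ x ∈ t, Cd x * (CL * (C' x * C' x)) := Finset.sum_nonneg fun x _ => by
      have := hC' x; have := hCd x; positivity
    linarith
  have huc : Continuous u := (h3 M X).1 u hu
  have hF : Continuous fun x => u x ^ 4 := huc.pow 4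
  have h0 : ∀ x, 0 ≤ u x ^ 4 := fun x => by positivity
  have hh : 0 ≤ X.h1sq u ^ 2 := sq_nonneg _
  have hs := sum_le X (fun x => u x ^ 4) (integrable_of_cont X hF) h0
    (fun x => κ x '' ball (0 : ℂ) 1)
    (fun x => ((hD x).isOpen _ isOpen_ball (ball_subset_ball (by norm_num))).measurableSet) t
  rw [univ_subset_iff.mp ht, setIntegral_univ] at hs
  have hb : ∀ x ∈ t, ∫ y in κ x '' ball 0 1, u y ^ 4 ∂X.vol ≤
      Cd x * (CL * (C' x * C' x)) * X.h1sq u ^ 2 := by
    intro x _
    obtain ⟨v, hv1, hv2, hv3, hv4, hv5, hv6⟩ := hv x u hu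
    have ht1 := transfer X (κ x) (d x) (hD x) (Cd x) (hd x) (fun x => u x ^ 4) hF h0
      (fun z => v z ^ 4) (hv1.continuous.pow 4) (fun z hz => by simp only [hv4 z hz])
    have hcs : HasCompactSupport (fun z => v z ^ 4) :=
      HasCompactSupport.comp_left (g := fun r : ℝ => r ^ 4) hv2 (by norm_num)
    have hc4 : Continuous (fun z => v z ^ 4) := hv1.continuous.pow 4
    have hint : Integrable (fun z => v z ^ 4) := hc4.integrable_of_hasCompactSupport hcs
    have hnn : ∀ z : ℂ, 0 ≤ v z ^ 4 := fun z => by positivity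
    have ht2 : ∫ z in ball (0 : ℂ) 1, v z ^ 4 ≤ ∫ z, v z ^ 4 :=
      setIntegral_le_integral hint (Eventually.of_forall hnn)
    have ht3 := hlad v hv1 hv2
    have hn1 : 0 ≤ ∫ z, v z ^ 2 := integral_nonneg fun z => sq_nonneg _
    have hn2 : 0 ≤ ∫ z, nsq v z := integral_nonneg fun z => nsq_nonneg _ _
    have hn3 : 0 ≤ C' x * X.h1sq u := hn1.trans hv6
    have ht4 : CL * (∫ z, v z ^ 2) * ∫ z, nsq v z ≤
        CL * (C' x * X.h1sq u) * (C' x * X.h1sq u) := by
      refine mul_le_mul (mul_le_mul_of_nonneg_left hv6 hCL.le) hv5 hn2 ?_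
      exact mul_nonneg hCL.le hn3
    calc ∫ y in κ x '' ball 0 1, u y ^ 4 ∂X.vol ≤ Cd x * ∫ z in ball (0 : ℂ) 1, v z ^ 4 := ht1
      _ ≤ Cd x * (CL * (C' x * X.h1sq u) * (C' x * X.h1sq u)) :=
          mul_le_mul_of_nonneg_left (ht2.trans (ht3.trans ht4)) (hCd x).le
      _ = Cd x * (CL * (C' x * C' x)) * X.h1sq u ^ 2 := by ring
  refine hs.trans ((Finset.sum_le_sum hb).trans ?_)
  rw [← Finset.sum_mul, add_mul, one_mul]
  linarith

theorem mtm (h1 : S_DISC) (h2 : S_EXPC) (h3 : S_SMO) (h4 : S_GIP) : S_MTM := by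
  intro M _ _ _ _ _ X q hq
  obtain ⟨κ, d, t, hD, ht⟩ := cover h1 X
  obtain ⟨c0, hc0, hexp⟩ := h2
  have hloc := fun x : M => local_est h3 h4 X (κ x) (d x) (hD x)
  choose C' Cd hC' hCd hd hv using hloc
  -- the radius
  obtain ⟨B, hB0, hB⟩ : ∃ B : ℝ, 0 < B ∧ ∀ x ∈ t, C' x ≤ B ^ 2 := by
    refine ⟨∑ x ∈ t, C' x + 1, ?_, fun x hx => ?_⟩
    · have : 0 ≤ ∑ x ∈ t, C' x := Finset.sum_nonneg fun x _ => (hC' x).le
      linarith
    · have h5 : C' x ≤ ∑ x ∈ t, C' x := Finset.single_le_sum (fun y _ => (hC' y).le) hx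
      have h6 : 0 ≤ ∑ x ∈ t, C' x := Finset.sum_nonneg fun x _ => (hC' x).le
      nlinarith
  set V : ℝ := 4 * (volume (closedBall (0 : ℂ) 2)).toReal with hV
  have hV0 : 0 ≤ V := by positivity
  refine ⟨c0 / (q * B), ∑ x ∈ t, Cd x * V + 1, by positivity, ?_, fun u hu hsm => ?_⟩
  · have : 0 ≤ ∑ x ∈ t, Cd x * V := Finset.sum_nonneg fun x _ => by
      have := hCd x; positivity
    linarith
  have huc : Continuous u := (h3 M X).1 u hu
  have hF : Continuous fun x => Real.exp (q * |u x|) :=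
    Real.continuous_exp.comp (continuous_const.mul huc.abs)
  have h0 : ∀ x, 0 ≤ Real.exp (q * |u x|) := fun x => (Real.exp_pos _).le
  have hs := sum_le X (fun x => Real.exp (q * |u x|)) (integrable_of_cont X hF) h0
    (fun x => κ x '' ball (0 : ℂ) 1)
    (fun x => ((hD x).isOpen _ isOpen_ball (ball_subset_ball (by norm_num))).measurableSet) t
  rw [univ_subset_iff.mp ht, setIntegral_univ] at hs
  have hb : ∀ x ∈ t, ∫ y in κ x '' ball 0 1, Real.exp (q * |u y|) ∂X.vol ≤ Cd x * V := by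
    intro x hxt
    obtain ⟨v, hv1, hv2, hv3, hv4, hv5, hv6⟩ := hv x u hu
    have hG : Continuous fun z => Real.exp (q * |v z|) :=
      Real.continuous_exp.comp (continuous_const.mul hv1.continuous.abs)
    have ht1 := transfer X (κ x) (d x) (hD x) (Cd x) (hd x) (fun x => Real.exp (q * |u x|)) hF h0
      (fun z => Real.exp (q * |v z|)) hG (fun z hz => by simp only [hv4 z hz])
    have ht2 : ∫ z in ball (0 : ℂ) 1, Real.exp (q * |v z|) ≤
        ∫ z in closedBall (0 : ℂ) 2, Real.exp (q * |v z|) := by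
      refine setIntegral_mono_set
        (hG.continuousOn.integrableOn_compact (isCompact_closedBall _ _))
        (Eventually.of_forall fun z => (Real.exp_pos _).le) (Eventually.of_forall ?_)
      exact ball_subset_closedBall.trans (closedBall_subset_closedBall (by norm_num))
    have hen : ∫ z, nsq v z ≤ (c0 / q) ^ 2 := by
      refine hv5.trans ?_
      have hh : 0 ≤ X.h1sq u := by
        have : 0 ≤ C' x * X.h1sq u := (integral_nonneg fun z => sq_nonneg _).trans hv6
        exact nonneg_of_mul_nonneg_right this (hC' x)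
      calc C' x * X.h1sq u ≤ B ^ 2 * (c0 / (q * B)) ^ 2 :=
            mul_le_mul (hB x hxt) hsm hh (sq_nonneg _)
        _ = (c0 / q) ^ 2 := by field_simp
    have ht3 := hexp v hv1 hv2 (closedBall 0 2) measurableSet_closedBall
      measure_closedBall_lt_top.ne hv3 q (c0 / q) hq.le (by positivity)
      (le_of_eq (by field_simp)) hen
    exact ht1.trans (mul_le_mul_of_nonneg_left (ht2.trans ht3) (hCd x).le)
  refine hs.trans ((Finset.sum_le_sum hb).trans ?_)
  linarith

end Pool.Agent.W589.PS.MTM
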